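import Pool.Agent.H29.ENR.Stmts

/-!
Board enr, row CYB: the base theorem for metacyclic groups.
-/

set_option autoImplicit false
set_option linter.style.haveILetI false

namespace Pool.ENR

open Pool.Agent.H81.ENG

theorem cyb_geo_mul (x : ℤ) (a b : ℕ) : ∑ i ∈ Finset.range (a * b), x ^ i =
    (∑ i ∈ Finset.range a, x ^ i) * ∑ i ∈ Finset.range b, (x ^ a) ^ i := by
  induction b with
  | zero => simp
  | succ b ih =>
    rw [Nat.mul_succ, Finset.sum_range_add, ih, Finset.sum_range_succ, mul_add]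
    congr 1
    rw [Finset.sum_mul]
    apply Finset.sum_congr rfl
    intro i _
    rw [← pow_mul, pow_add, mul_comm]

theorem cyb_geo {p : ℕ} (lam : ℤ) (h : (p : ℤ) ∣ lam - 1) (k : ℕ) :
    ((p ^ k : ℕ) : ℤ) ∣ ∑ i ∈ Finset.range (p ^ k), lam ^ i := by
  induction k with
  | zero => simp
  | succ k ih =>
    rw [pow_succ, cyb_geo_mul]
    push_cast
    push_cast at ih
    apply mul_dvd_mul ih
    have h1 : ∀ n : ℕ, (p : ℤ) ∣ lam ^ n - 1 := by
      intro n
      refine dvd_trans h ?_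
      have := sub_dvd_pow_sub_pow lam 1 n
      rwa [one_pow] at this
    have h2 : ∑ i ∈ Finset.range p, (lam ^ p ^ k) ^ i =
        ∑ i ∈ Finset.range p, ((lam ^ p ^ k) ^ i - 1) + p := by
      rw [Finset.sum_sub_distrib]
      simp
    rw [h2]
    refine dvd_add (Finset.dvd_sum ?_) dvd_rfl
    intro i _
    rw [← pow_mul]
    exact h1 _

section

variable {P : Type} [Group P] {s n : P} {τ : MulAut P} {lam u : ℕ}

theorem cyb_tau_s (hs : τ s = s ^ lam) (M : ℕ) : (τ ^ M) s = s ^ (lam ^ M) := by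
  induction M with
  | zero => simp
  | succ M ih =>
    rw [pow_succ', MulAut.mul_apply, ih, map_pow, hs, ← pow_mul, pow_succ']

theorem cyb_tau_n (hs : τ s = s ^ lam) (hn : τ n = s ^ u * n) (M : ℕ) :
    (τ ^ M) n = s ^ (u * ∑ i ∈ Finset.range M, lam ^ i) * n := by
  induction M with
  | zero => simp
  | succ M ih =>
    rw [pow_succ', MulAut.mul_apply, ih, map_mul, map_pow, hs, hn, ← pow_mul, ← mul_assoc,
      ← pow_add, geom_sum_succ]
    congr 2
    ring

theorem cyb_normal {r j : ℕ} (hcl : Subgroup.closure {s, n} = ⊤) (hr : 0 < r) (hn : n ^ r = 1)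
    (hns : n * s * n⁻¹ = s ^ j) : (Subgroup.zpowers s).Normal := by
  have hnn : ∀ x ∈ Subgroup.zpowers s, n * x * n⁻¹ ∈ Subgroup.zpowers s := by
    rintro _ ⟨z, rfl⟩
    show n * s ^ z * n⁻¹ ∈ Subgroup.zpowers s
    rw [← conj_zpow, hns]
    exact Subgroup.zpow_mem _ (Subgroup.pow_mem _ (Subgroup.mem_zpowers s) j) z
  have hnp : ∀ i : ℕ, ∀ x ∈ Subgroup.zpowers s, n ^ i * x * (n ^ i)⁻¹ ∈ Subgroup.zpowers s := by
    intro i
    induction i with
    | zero => intro x hx; simpa using hx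
    | succ i ih =>
      intro x hx
      have h1 := hnn _ (ih x hx)
      have h2 : n ^ (i + 1) * x * (n ^ (i + 1))⁻¹ = n * (n ^ i * x * (n ^ i)⁻¹) * n⁻¹ := by
        rw [pow_succ']; group
      rw [h2]; exact h1
  have hinv : n⁻¹ = n ^ (r - 1) := by
    apply inv_eq_of_mul_eq_one_right
    rw [← pow_succ', Nat.sub_add_cancel hr, hn]
  have key : ∀ g ∈ Subgroup.closure {s, n}, (∀ x ∈ Subgroup.zpowers s,
      g * x * g⁻¹ ∈ Subgroup.zpowers s) ∧ (∀ x ∈ Subgroup.zpowers s,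
      g⁻¹ * x * g ∈ Subgroup.zpowers s) := by
    intro g hg
    induction hg using Subgroup.closure_induction with
    | mem g hg =>
      rcases hg with rfl | rfl
      · refine ⟨fun x hx => ?_, fun x hx => ?_⟩
        · exact Subgroup.mul_mem _ (Subgroup.mul_mem _ (Subgroup.mem_zpowers g) hx)
            (Subgroup.inv_mem _ (Subgroup.mem_zpowers g))
        · exact Subgroup.mul_mem _ (Subgroup.mul_mem _
            (Subgroup.inv_mem _ (Subgroup.mem_zpowers g)) hx) (Subgroup.mem_zpowers g)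
      · refine ⟨hnn, fun x hx => ?_⟩
        have h1 := hnp (r - 1) x hx
        rw [← hinv, inv_inv] at h1
        exact h1
    | one => exact ⟨fun x hx => by simpa using hx, fun x hx => by simpa using hx⟩
    | mul g h _ _ hg hh =>
      refine ⟨fun x hx => ?_, fun x hx => ?_⟩
      · have h1 := hg.1 _ (hh.1 x hx)
        have h2 : g * h * x * (g * h)⁻¹ = g * (h * x * h⁻¹) * g⁻¹ := by group
        rw [h2]; exact h1
      · have h1 := hh.2 _ (hg.2 x hx)
        have h2 : (g * h)⁻¹ * x * (g * h) = h⁻¹ * (g⁻¹ * x * g) * h := by group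
        rw [h2]; exact h1
    | inv g _ hg =>
      refine ⟨fun x hx => ?_, fun x hx => ?_⟩
      · rw [inv_inv]; exact hg.2 x hx
      · rw [inv_inv]; exact hg.1 x hx
  constructor
  intro x hx g
  exact (key g (by rw [hcl]; exact Subgroup.mem_top g)).1 x hx

/-- Extension of the values on `[0, k)` to a twisted periodic sequence. -/
def cybG (τ : MulAut P) (k : ℕ) (w : ℤ → P) : ℤ → P := fun i => (τ ^ (i / (k : ℤ))) (w (i % k))

theorem cybG_mem (τ : MulAut P) {k : ℕ} (hk : 0 < k) (w : ℤ → P) : cybG τ k w ∈ TSq τ k := by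
  intro i
  have hkz : (k : ℤ) ≠ 0 := by exact_mod_cast hk.ne'
  show (τ ^ ((i + k) / (k : ℤ))) (w ((i + k) % k)) = τ ((τ ^ (i / (k : ℤ))) (w (i % k)))
  rw [Int.add_emod_right, Int.add_ediv_of_dvd_right (dvd_refl _), Int.ediv_self hkz, add_comm,
    zpow_one_add, MulAut.mul_apply]

theorem cyb_tw {k : ℕ} {x : ℤ → P} (hx : x ∈ TSq τ k) (m i : ℤ) :
    x (i + k * m) = (τ ^ m) (x i) := by
  induction m using Int.induction_on generalizing i with
  | zero => simp
  | succ m ih =>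
    have h1 : i + k * ((m : ℤ) + 1) = (i + k * m) + k := by ring
    rw [h1, hx, ih, add_comm (m : ℤ) 1, zpow_one_add, MulAut.mul_apply]
  | pred m ih =>
    have h1 := hx (i + k * (-(m : ℤ) - 1))
    have h3 : i + k * (-(m : ℤ) - 1) + k = i + k * (-(m : ℤ)) := by ring
    rw [h3, ih] at h1
    have h4 : (τ ^ (-(m : ℤ))) (x i) = τ ((τ ^ (-(m : ℤ) - 1)) (x i)) := by
      rw [← MulAut.mul_apply, ← zpow_one_add]
      congr 2
      ring
    rw [h4] at h1
    exact (τ.injective h1).symm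

theorem cyb_tw' {k : ℕ} {x : ℤ → P} (hx : x ∈ TSq τ k) (i : ℤ) :
    x i = (τ ^ (i / (k : ℤ))) (x (i % k)) := by
  have h := cyb_tw hx (i / k) (i % k)
  rw [Int.emod_add_mul_ediv] at h
  exact h

theorem cyb_sh_pow {k : ℕ} (m : ℕ) (x : TSq τ k) (i : ℤ) :
    (((tsh τ k ^ (k * m)) x : TSq τ k) : ℤ → P) i = (τ ^ m) ((x : ℤ → P) i) := by
  have h1 := restr_pow_apply (shift P) (TSq τ k) (TSq_shift τ k) (k * m) x
  have h2 := congrFun h1 i
  rw [shift_pow_apply] at h2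
  refine h2.trans ?_
  have h3 := cyb_tw x.2 m i
  rw [zpow_natCast] at h3
  rw [← h3, Nat.cast_mul]

/-- The exponent sequence. -/
def cybE (τ : MulAut P) (s : P) (k q : ℕ) (hk : 0 < k) (f : Fin k → ZMod q) : ℤ → P :=
  cybG τ k (fun i => pw s (f ⟨i.toNat % k, Nat.mod_lt _ hk⟩))

theorem cybE_val (τ : MulAut P) (s : P) (k q : ℕ) (hk : 0 < k) (f : Fin k → ZMod q) (t : Fin k) :
    cybE τ s k q hk f (t : ℕ) = pw s (f t) := by
  have h1 : ((t : ℕ) : ℤ) / (k : ℤ) = 0 :=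
    Int.ediv_eq_zero_of_lt (by positivity) (by exact_mod_cast t.2)
  have h2 : ((t : ℕ) : ℤ) % (k : ℤ) = (t : ℕ) :=
    Int.emod_eq_of_lt (by positivity) (by exact_mod_cast t.2)
  show (τ ^ (((t : ℕ) : ℤ) / (k : ℤ))) (pw s (f ⟨(((t : ℕ) : ℤ) % (k : ℤ)).toNat % k, _⟩)) = _
  rw [h1, zpow_zero, MulAut.one_apply]
  congr 2
  apply Fin.ext
  show (((t : ℕ) : ℤ) % (k : ℤ)).toNat % k = t
  rw [h2, Int.toNat_natCast, Nat.mod_eq_of_lt t.2]

theorem cybE_add (τ : MulAut P) (s : P) (k q : ℕ) [NeZero q] (hk : 0 < k) (hq : s ^ q = 1)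
    (f g : Fin k → ZMod q) : cybE τ s k q hk (f + g) = cybE τ s k q hk f * cybE τ s k q hk g := by
  funext i
  show (τ ^ (i / (k : ℤ))) (pw s ((f + g) _)) = (τ ^ (i / (k : ℤ))) (pw s (f _)) *
    (τ ^ (i / (k : ℤ))) (pw s (g _))
  rw [Pi.add_apply, pw_add hq, map_mul]

theorem cyb_pw_inj {q : ℕ} [NeZero q] (ho : orderOf s = q) {x y : ZMod q} (h : pw s x = pw s y) :
    x = y := by
  unfold pw at h
  rw [pow_eq_pow_iff_modEq, ho] at h
  exact ZMod.val_injective q (h.eq_of_lt_of_lt (ZMod.val_lt x) (ZMod.val_lt y))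

theorem cyb_pw_int {q : ℕ} [NeZero q] (ho : orderOf s = q) (z : ℤ) : pw s (z : ZMod q) = s ^ z := by
  unfold pw
  rw [← zpow_natCast, ZMod.val_intCast]
  conv_lhs => rw [← ho]
  exact zpow_mod_orderOf s z

theorem cybE_surj {q : ℕ} [NeZero q] {k : ℕ} (hk : 0 < k) (ho : orderOf s = q) {x : ℤ → P}
    (hx : x ∈ TSq τ k) (hN : ∀ i, x i ∈ Subgroup.zpowers s) :
    ∃ f, cybE τ s k q hk f = x := by
  choose z hz using fun i => hN i
  have hkz : (0 : ℤ) < (k : ℤ) := by exact_mod_cast hk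
  refine ⟨fun t => ((z ((t : ℕ) : ℤ) : ℤ) : ZMod q), ?_⟩
  funext i
  rw [cyb_tw' hx i]
  show (τ ^ (i / (k : ℤ))) (pw s ((z (((i % (k : ℤ)).toNat % k : ℕ) : ℤ) : ℤ) : ZMod q)) = _
  have hge : 0 ≤ i % (k : ℤ) := Int.emod_nonneg _ hkz.ne'
  have hlt : i % (k : ℤ) < k := Int.emod_lt_of_pos _ hkz
  have h1 : (((i % (k : ℤ)).toNat % k : ℕ) : ℤ) = i % (k : ℤ) := by
    rw [Nat.mod_eq_of_lt (by omega), Int.toNat_of_nonneg hge]
  rw [h1, cyb_pw_int ho]
  congr 1
  exact hz _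

end

theorem cyb_thm (hAFF : AFFStmt) (hNUM : NUMStmt) (hUN2 : UN2Stmt) : CYBStmt := by
  intro P _ p r b c lam j u s n τ hp hp2 hr hrp hb hc hos hcl hnr hns hj hτs hlam hτn hpu d hL
  haveI : Fact p.Prime := ⟨hp⟩
  haveI : Fact r.Prime := ⟨hr⟩
  have hk : 0 < p ^ b := pow_pos hp.pos b
  have hkz : (((p ^ b : ℕ) : ℤ)) ≠ 0 := by exact_mod_cast hk.ne'
  haveI : NeZero (p ^ c) := ⟨(pow_pos hp.pos c).ne'⟩
  haveI : NeZero r := ⟨hr.ne_zero⟩
  haveI hNn : (Subgroup.zpowers s).Normal := cyb_normal hcl hr.pos hnr hns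
  have hlamz : (p : ℤ) ∣ (lam : ℤ) - 1 := by
    have h1 := (Nat.modEq_iff_dvd).mp hlam.symm
    exact_mod_cast h1
  have hsc : s ^ (p ^ c) = 1 := by rw [← hos]; exact pow_orderOf_eq_one s
  let θ : P →* P ⧸ Subgroup.zpowers s := QuotientGroup.mk' _
  have hθ1 : ∀ x, θ x = 1 ↔ x ∈ Subgroup.zpowers s := fun x => QuotientGroup.eq_one_iff x
  have hθτ : ∀ x, θ (τ x) = θ x := by
    have h1 : θ.comp τ.toMonoidHom = θ := by
      apply MonoidHom.eq_of_eqOn_dense hcl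
      rintro x (rfl | rfl)
      · show θ (τ x) = θ x
        rw [hτs, (hθ1 _).mpr (Subgroup.pow_mem _ (Subgroup.mem_zpowers x) _),
          (hθ1 _).mpr (Subgroup.mem_zpowers x)]
      · show θ (τ x) = θ x
        rw [hτn, map_mul, (hθ1 _).mpr (Subgroup.pow_mem _ (Subgroup.mem_zpowers s) _), one_mul]
    intro x
    exact DFunLike.congr_fun h1 x
  have hθτz : ∀ (m : ℤ) (x : P), θ ((τ ^ m) x) = θ x := by
    intro m
    induction m using Int.induction_on with
    | zero => intro x; simp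
    | succ m ih =>
      intro x
      rw [zpow_add_one, MulAut.mul_apply, ih, hθτ]
    | pred m ih =>
      intro x
      rw [zpow_sub_one, MulAut.mul_apply, ih, ← hθτ (τ⁻¹ x), MulAut.apply_inv_self]
  have hN0τz : ∀ (m : ℤ) (x : P), x ∈ Subgroup.zpowers s → (τ ^ m) x ∈ Subgroup.zpowers s := by
    intro m x hx
    rw [← hθ1, hθτz, hθ1]
    exact hx
  -- the order of τ
  have hgeo : ((p ^ c : ℕ) : ℤ) ∣ ∑ i ∈ Finset.range (p ^ c), (lam : ℤ) ^ i := cyb_geo _ hlamz c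
  have hτc : τ ^ (p ^ c) = 1 := by
    have h1 : (τ ^ (p ^ c)).toMonoidHom = MonoidHom.id P := by
      apply MonoidHom.eq_of_eqOn_dense hcl
      rintro x (rfl | rfl)
      · show (τ ^ (p ^ c)) x = x
        rw [cyb_tau_s hτs]
        conv_rhs => rw [← pow_one x]
        rw [pow_eq_pow_iff_modEq, hos]
        apply Nat.ModEq.symm
        rw [Nat.modEq_iff_dvd]
        push_cast
        rw [← geom_sum_mul]
        refine Dvd.dvd.mul_right ?_ _
        exact_mod_cast hgeo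
      · show (τ ^ (p ^ c)) x = x
        rw [cyb_tau_n hτs hτn]
        have h2 : p ^ c ∣ u * ∑ i ∈ Finset.range (p ^ c), lam ^ i := by
          apply Dvd.dvd.mul_left
          have h3 : ((p ^ c : ℕ) : ℤ) ∣ ((∑ i ∈ Finset.range (p ^ c), lam ^ i : ℕ) : ℤ) := by
            push_cast
            exact_mod_cast hgeo
          exact_mod_cast h3
        have h4 : s ^ (u * ∑ i ∈ Finset.range (p ^ c), lam ^ i) = 1 :=
          orderOf_dvd_iff_pow_eq_one.mp (by rw [hos]; exact h2)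
        rw [h4, one_mul]
    apply MulEquiv.ext
    intro x
    exact DFunLike.congr_fun h1 x
  set μ := b + c - 1 with hμ
  have hμ1 : μ + 1 = b + c := by omega
  have hμk : p ^ μ = p ^ b * p ^ (c - 1) := by
    rw [← pow_add]; congr 1; omega
  have hS1 : (tsh τ (p ^ b)) ^ (p ^ (μ + 1)) = 1 := by
    apply MulEquiv.ext
    intro x
    apply Subtype.ext
    funext i
    rw [hμ1, pow_add, cyb_sh_pow, hτc]
    rfl
  -- the subgroup N
  let N : Subgroup (TSq τ (p ^ b)) :=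
    { carrier := {x | ∀ i, (x : ℤ → P) i ∈ Subgroup.zpowers s}
      one_mem' := fun _ => Subgroup.one_mem _
      mul_mem' := fun ha hb i => Subgroup.mul_mem _ (ha i) (hb i)
      inv_mem' := fun ha i => Subgroup.inv_mem _ (ha i) }
  haveI hNnorm : N.Normal := by
    constructor
    intro x hx g i
    exact hNn.conj_mem _ (hx i) _
  have hcomm0 : ∀ x ∈ Subgroup.zpowers s, ∀ y ∈ Subgroup.zpowers s, x * y = y * x := by
    rintro _ ⟨x, rfl⟩ _ ⟨y, rfl⟩
    show s ^ x * s ^ y = s ^ y * s ^ x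
    rw [← zpow_add, ← zpow_add, add_comm]
  have hcomm : ∀ x ∈ N, ∀ y ∈ N, x * y = y * x := by
    intro x hx y hy
    apply Subtype.ext
    funext i
    exact hcomm0 _ (hx i) _ (hy i)
  -- the constant sequence
  have hw : τ (s ^ (p ^ (c - 1))) = s ^ (p ^ (c - 1)) := by
    rw [map_pow, hτs, ← pow_mul, pow_eq_pow_iff_modEq, hos]
    have h1 := hlam.mul_right' (p ^ (c - 1))
    rw [one_mul, ← pow_succ', Nat.sub_add_cancel hc] at h1
    exact h1
  let v : TSq τ (p ^ b) := ⟨fun _ => s ^ (p ^ (c - 1)), fun _ => hw.symm⟩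
  have hv : v ∈ N := fun _ => Subgroup.pow_mem _ (Subgroup.mem_zpowers s) _
  have hv1 : v ≠ 1 := by
    intro h
    have h1 : s ^ (p ^ (c - 1)) = 1 := congrFun (congrArg Subtype.val h) 0
    have h2 := orderOf_dvd_of_pow_eq_one h1
    rw [hos] at h2
    have h3 := (Nat.pow_dvd_pow_iff_le_right hp.one_lt).mp h2
    omega
  have hSv : tsh τ (p ^ b) v = v := rfl
  -- affine maps
  have haff : ∀ (a : N →* N) (u0 : N), a ⟨v, hv⟩ = 1 → ∃ m t : ℕ, ¬ p ∣ m ∧
      ∀ y, (fun y => a y * u0)^[t + m * p ^ μ] y = (fun y => a y * u0)^[t] y := by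
    intro a u0 ha
    let E : (Fin (p ^ b) → ZMod (p ^ c)) → N := fun f =>
      ⟨⟨cybE τ s (p ^ b) (p ^ c) hk f, cybG_mem τ hk _⟩,
        fun i => hN0τz _ _ (Subgroup.pow_mem _ (Subgroup.mem_zpowers s) _)⟩
    have hEadd : ∀ f g, E (f + g) = E f * E g := by
      intro f g
      exact Subtype.ext (Subtype.ext (cybE_add τ s (p ^ b) (p ^ c) hk hsc f g))
    have hEinj : Function.Injective E := by
      intro f g hfg
      have h1 : cybE τ s (p ^ b) (p ^ c) hk f = cybE τ s (p ^ b) (p ^ c) hk g :=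
        congrArg (fun x : N => ((x : TSq τ (p ^ b)) : ℤ → P)) hfg
      funext t
      have h2 := congrFun h1 ((t : ℕ) : ℤ)
      rw [cybE_val, cybE_val] at h2
      exact cyb_pw_inj hos h2
    have hEsurj : Function.Surjective E := by
      rintro ⟨⟨x, hx⟩, hxN⟩
      obtain ⟨f, hf⟩ := cybE_surj hk hos hx hxN
      exact ⟨f, Subtype.ext (Subtype.ext hf)⟩
    let e := Equiv.ofBijective E ⟨hEinj, hEsurj⟩
    have hee : ∀ x, E (e.symm x) = x := fun x => e.apply_symm_apply x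
    let A : (Fin (p ^ b) → ZMod (p ^ c)) →+ (Fin (p ^ b) → ZMod (p ^ c)) :=
      AddMonoidHom.mk' (fun f => e.symm (a (E f))) (by
        intro f g
        apply hEinj
        rw [hee, hEadd, hEadd, hee, hee, map_mul])
    have hEA : ∀ f, E (A f) = a (E f) := fun f => hee _
    have hE0 : E 0 = 1 := by
      have h1 := hEadd 0 0
      rw [add_zero] at h1
      exact (mul_eq_left.mp h1.symm)
    obtain ⟨m, t, hm, hA⟩ := hAFF p b c hc A (e.symm u0) (e.symm ⟨v, hv⟩) (by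
      intro h
      apply hv1
      have h1 := congrArg E h
      rw [hee, hE0] at h1
      exact congrArg Subtype.val h1) (by
      apply hEinj
      rw [hEA, hee, ha, hE0])
    have hsemi : ∀ (i : ℕ) (f : Fin (p ^ b) → ZMod (p ^ c)),
        E ((fun v => A v + e.symm u0)^[i] f) = (fun y => a y * u0)^[i] (E f) := by
      intro i
      induction i with
      | zero => intro f; rfl
      | succ i ih =>
        intro f
        rw [Function.iterate_succ_apply, Function.iterate_succ_apply, ih, hEadd, hEA, hee]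
    refine ⟨m, t, hm, fun y => ?_⟩
    obtain ⟨f, rfl⟩ := hEsurj y
    rw [← hsemi, ← hsemi, hA]
  -- the model sequence
  have h2b : 2 < p ^ b := by
    have h3 : 3 ≤ p := by
      have := hp.two_le
      omega
    calc 2 < p := by omega
      _ = p ^ 1 := (pow_one p).symm
      _ ≤ p ^ b := Nat.pow_le_pow_right hp.pos hb
  obtain ⟨a, ha0, haM, -, -, hcase⟩ := root_seq hp (Ne.symm hrp) h2b
  let ξ : TSq τ (p ^ b) := ⟨cybG τ (p ^ b) (fun i => pw n (a i)), cybG_mem τ hk _⟩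
  have hper : ∀ i, a (i % ((p ^ b : ℕ) : ℤ)) = a i := by
    intro i
    have h3 : Function.Periodic a ((p ^ b : ℕ) : ℤ) := haM
    have h4 := h3.int_mul (i / ((p ^ b : ℕ) : ℤ)) (i % ((p ^ b : ℕ) : ℤ))
    simp only [Int.cast_id] at h4
    rw [mul_comm, Int.emod_add_mul_ediv] at h4
    exact h4.symm
  have hθξ : ∀ i, θ ((ξ : ℤ → P) i) = pw (θ n) (a i) := by
    intro i
    show θ ((τ ^ (i / ((p ^ b : ℕ) : ℤ))) (pw n (a (i % ((p ^ b : ℕ) : ℤ))))) = _
    rw [hθτz, pw_map, hper]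
  have hθnr : (θ n) ^ r = 1 := by rw [← map_pow, hnr, map_one]
  have hξ0 : (ξ : ℤ → P) 0 = n := by
    show (τ ^ ((0 : ℤ) / ((p ^ b : ℕ) : ℤ))) (pw n (a ((0 : ℤ) % ((p ^ b : ℕ) : ℤ)))) = n
    rw [Int.zero_ediv, Int.zero_emod, ha0, pw_one n hr.one_lt]
    simp
  -- no fixed points
  have hfix : ∀ y ∈ N, ∀ M : ℕ, ¬ p ∣ M →
      ((tsh τ (p ^ b)) ^ (p ^ μ * M)) (y * ξ) ≠ y * ξ := by
    intro y hy M hM heq
    have h1 := congrFun (congrArg Subtype.val heq) 0
    rw [hμk, mul_assoc, cyb_sh_pow] at h1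
    obtain ⟨e, he⟩ := hy 0
    have h2 : ((y * ξ : TSq τ (p ^ b)) : ℤ → P) 0 = s ^ e * n := by
      show (y : ℤ → P) 0 * (ξ : ℤ → P) 0 = _
      rw [hξ0]
      congr 1
      exact he.symm
    rw [h2, map_mul, map_zpow, cyb_tau_s hτs, cyb_tau_n hτs hτn, ← mul_assoc] at h1
    have h3 := mul_right_cancel h1
    rw [← zpow_natCast s (lam ^ (p ^ (c - 1) * M)), ← zpow_mul, ← zpow_natCast s (u * _),
      ← zpow_add] at h3
    have h4 : s ^ (e * ((lam : ℤ) ^ (p ^ (c - 1) * M) - 1) +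
        (u : ℤ) * ∑ i ∈ Finset.range (p ^ (c - 1) * M), (lam : ℤ) ^ i) = 1 := by
      have h5 : e * ((lam : ℤ) ^ (p ^ (c - 1) * M) - 1) +
          (u : ℤ) * ∑ i ∈ Finset.range (p ^ (c - 1) * M), (lam : ℤ) ^ i =
          (((lam ^ (p ^ (c - 1) * M) : ℕ) : ℤ) * e +
            ((u * ∑ i ∈ Finset.range (p ^ (c - 1) * M), lam ^ i : ℕ) : ℤ)) - e := by
        push_cast
        ring
      rw [h5, zpow_sub, h3, mul_inv_cancel]
    have h6 := orderOf_dvd_iff_zpow_eq_one.mpr h4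
    rw [hos] at h6
    exact hNUM p c M lam e u hp hp2 hc hM (by exact_mod_cast hpu) hlamz h6
  have hSN : ∀ x ∈ N, tsh τ (p ^ b) x ∈ N := fun x hx i => hx (i + 1)
  have hSN' : ∀ x ∈ N, (tsh τ (p ^ b))⁻¹ x ∈ N := fun x hx i => hx (i - 1)
  rw [← hμ1]
  rcases hcase with ⟨rr, hrr, hrel⟩ | ⟨rr, hrr, hrel⟩
  · refine hUN2 _ (tsh τ (p ^ b)) N p μ hp hcomm hSN hSN' hS1 v hv hv1 hSv haff ξ rr hrr ?_ hfix
      d hL.1
    intro i
    rw [← hθ1]
    show θ ((((ef (tsh τ (p ^ b)))^[rr] ξ : TSq τ (p ^ b)) : ℤ → P) i *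
      ((ξ : ℤ → P) (i + 1))⁻¹) = 1
    have h1 := coe_ef_restr (shift P) (TSq τ (p ^ b)) (TSq_shift τ (p ^ b)) rr ξ
    have h2 := congrFun h1 i
    have h3 : (((ef (tsh τ (p ^ b)))^[rr] ξ : TSq τ (p ^ b)) : ℤ → P) i =
      ((ef (shift P))^[rr] (ξ : ℤ → P)) i := h2
    rw [h3, map_mul, map_inv, hθξ, rel_iter θ hθnr rr (ξ : ℤ → P) a hθξ, hrel, mul_inv_cancel]
  · refine hUN2 _ (tsh τ (p ^ b))⁻¹ N p μ hp hcomm hSN' (by rw [inv_inv]; exact hSN) ?_ v hv hv1
      ?_ haff ξ rr hrr ?_ ?_ d hL.2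
    · rw [inv_pow, hS1, inv_one]
    · apply (tsh τ (p ^ b)).injective
      rw [MulAut.apply_inv_self, hSv]
    · intro i
      rw [← hθ1]
      show θ ((((ef (tsh τ (p ^ b))⁻¹)^[rr] ξ : TSq τ (p ^ b)) : ℤ → P) i *
        ((ξ : ℤ → P) (i - 1))⁻¹) = 1
      have h1 := coe_ef_restr_inv (shift P) (TSq τ (p ^ b)) (TSq_shift τ (p ^ b)) rr ξ
      have h2 := congrFun h1 i
      have h3 : (((ef (tsh τ (p ^ b))⁻¹)^[rr] ξ : TSq τ (p ^ b)) : ℤ → P) i =
        ((ef (shift P)⁻¹)^[rr] (ξ : ℤ → P)) i := h2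
      rw [h3, map_mul, map_inv, hθξ, rel_iter_inv θ hθnr rr (ξ : ℤ → P) a hθξ, hrel,
        mul_inv_cancel]
    · intro y hy M hM heq
      apply hfix y hy M hM
      have h1 := congrArg ((tsh τ (p ^ b)) ^ (p ^ μ * M)) heq
      rw [inv_pow, MulAut.apply_inv_self] at h1
      exact h1.symm

end Pool.ENR
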