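import Pool.Agent.H29.ENR.Stmts3

/-!
Board enr, row GSE: the section of `T` given by an abelian `p`-subgroup and a `p'`-element.
-/

set_option autoImplicit false
set_option linter.style.haveILetI false

namespace Pool.ENR

open Pool.Agent.H81.ENG

section

variable {T : Type} [Group T] {R : Type} [CommRing R]

/-- The data: a subgroup `N`, an element `n` normalising it, an additive function `f` on `N`. -/
structure GD (N : Subgroup T) (n : T) (f : T → R) (ζ : R) (m : ℕ) : Prop where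
  m0 : 0 < m
  nm : n ^ m = 1
  mul : ∀ x ∈ N, ∀ y ∈ N, f (x * y) = f x + f y
  cj : ∀ x ∈ N, n * x * n⁻¹ ∈ N ∧ f (n * x * n⁻¹) = ζ * f x
  com : ∀ x ∈ N, ∀ y ∈ N, x * y = y * x
  sur : ∀ y : R, ∃ x ∈ N, f x = y
  tr : ∀ i : ℕ, n ^ i ∈ N → n ^ i = 1

variable {N : Subgroup T} {n : T} {f : T → R} {ζ : R} {m : ℕ}

theorem GD.one (h : GD N n f ζ m) : f 1 = 0 := by
  have h1 := h.mul 1 N.one_mem 1 N.one_mem
  rw [mul_one] at h1
  exact left_eq_add.mp h1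

theorem GD.inv (h : GD N n f ζ m) {x : T} (hx : x ∈ N) : f x⁻¹ = -f x := by
  have h1 := h.mul x hx x⁻¹ (N.inv_mem hx)
  rw [mul_inv_cancel, h.one] at h1
  exact (neg_eq_of_add_eq_zero_right h1.symm).symm

theorem GD.cji (h : GD N n f ζ m) (i : ℕ) {x : T} (hx : x ∈ N) :
    n ^ i * x * (n ^ i)⁻¹ ∈ N ∧ f (n ^ i * x * (n ^ i)⁻¹) = ζ ^ i * f x := by
  induction i with
  | zero => simpa using hx
  | succ i ih =>
    have h1 := h.cj _ ih.1
    have h2 : n ^ (i + 1) * x * (n ^ (i + 1))⁻¹ = n * (n ^ i * x * (n ^ i)⁻¹) * n⁻¹ := by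
      rw [pow_succ']; group
    rw [h2]
    refine ⟨h1.1, ?_⟩
    rw [h1.2, ih.2, pow_succ', mul_assoc]

theorem GD.ninv (h : GD N n f ζ m) (i : ℕ) : (n ^ i)⁻¹ = n ^ ((m - 1) * i) := by
  apply inv_eq_of_mul_eq_one_right
  rw [← pow_add]
  have h1 : i + (m - 1) * i = m * i := by
    obtain ⟨m', rfl⟩ := Nat.exists_eq_add_of_lt h.m0
    simp only [zero_add, Nat.add_sub_cancel]
    ring
  rw [h1, pow_mul, h.nm, one_pow]

/-- The group `N <n^e>`, elements of `N` restricted by `Q`. -/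
def GD.sub (h : GD N n f ζ m) (e : ℕ) (Q : Set T) (hQ1 : (1 : T) ∈ Q)
    (hQm : ∀ x ∈ N, x ∈ Q → ∀ y ∈ N, y ∈ Q → ∀ i : ℕ, x * (n ^ (e * i) * y * (n ^ (e * i))⁻¹) ∈ Q)
    (hQi : ∀ x ∈ N, x ∈ Q → ∀ i : ℕ, n ^ (e * i) * x⁻¹ * (n ^ (e * i))⁻¹ ∈ Q) : Subgroup T where
  carrier := {t | ∃ x ∈ N, x ∈ Q ∧ ∃ i : ℕ, t = x * n ^ (e * i)}
  one_mem' := ⟨1, N.one_mem, hQ1, 0, by simp⟩
  mul_mem' := by
    rintro _ _ ⟨x, hx, hxQ, i, rfl⟩ ⟨y, hy, hyQ, j, rfl⟩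
    refine ⟨x * (n ^ (e * i) * y * (n ^ (e * i))⁻¹), N.mul_mem hx (h.cji _ hy).1,
      hQm x hx hxQ y hy hyQ i, i + j, ?_⟩
    rw [mul_add, pow_add]
    group
  inv_mem' := by
    rintro _ ⟨x, hx, hxQ, i, rfl⟩
    refine ⟨n ^ (e * ((m - 1) * i)) * x⁻¹ * (n ^ (e * ((m - 1) * i)))⁻¹,
      (h.cji _ (N.inv_mem hx)).1, hQi x hx hxQ _, (m - 1) * i, ?_⟩
    rw [mul_inv_rev, h.ninv, inv_mul_cancel_right]
    congr 2
    ring

theorem GD.core (h : GD N n f ζ m) [Finite T] (hQTL : QTLStmt) (hGRB : GRBStmt) {p r b c : ℕ}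
    (hp : p.Prime) (hp2 : p ≠ 2) (hr : r.Prime) (hrp : r ≠ p) (hb : 1 ≤ b) (hc : 1 ≤ c)
    (hR : GRing R p c) (hζr : ζ ^ r = 1) (hζu : IsUnit (ζ - 1)) {z : T} (hz : z ∈ N)
    (hfz : f z = 1) (d : ℕ) (hL : SL (tsh (MulAut.conj z⁻¹ : MulAut T) (p ^ b)) d) :
    p ^ (b + c) ∣ d := by
  let Γ : Subgroup T := h.sub 1 Set.univ trivial (fun _ _ _ _ _ _ _ => trivial)
    (fun _ _ _ _ => trivial)
  have hΓ : ∀ t, t ∈ Γ ↔ ∃ x ∈ N, ∃ i : ℕ, t = x * n ^ i := by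
    intro t
    constructor
    · rintro ⟨x, hx, -, i, rfl⟩
      exact ⟨x, hx, i, by rw [one_mul]⟩
    · rintro ⟨x, hx, i, rfl⟩
      exact ⟨x, hx, trivial, i, by rw [one_mul]⟩
  let D : Subgroup T := h.sub r {x | f x = 0} h.one
    (fun x hx hxQ y hy hyQ i => by
      show f _ = 0
      rw [h.mul _ hx _ (h.cji _ hy).1, (h.cji _ hy).2, show f x = 0 from hxQ,
        show f y = 0 from hyQ, mul_zero, add_zero])
    (fun x hx hxQ i => by
      show f _ = 0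
      rw [(h.cji _ (N.inv_mem hx)).2, h.inv hx, show f x = 0 from hxQ, neg_zero, mul_zero])
  have hD : ∀ t, t ∈ D ↔ ∃ x ∈ N, f x = 0 ∧ ∃ i : ℕ, t = x * n ^ (r * i) := fun t => Iff.rfl
  have hNΓ : ∀ x ∈ N, x ∈ Γ := fun x hx => (hΓ x).mpr ⟨x, hx, 0, by simp⟩
  have hnΓ : n ∈ Γ := (hΓ n).mpr ⟨1, N.one_mem, 1, by simp⟩
  have hDN : ∀ x ∈ N, (x ∈ D ↔ f x = 0) := by
    intro x hx
    constructor
    · intro hxD
      obtain ⟨y, hy, hy0, i, rfl⟩ := (hD x).mp hxD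
      have h1 : n ^ (r * i) ∈ N := by
        have := N.mul_mem (N.inv_mem hy) hx
        rwa [inv_mul_cancel_left] at this
      rw [h.tr _ h1, mul_one]
      exact hy0
    · intro h0
      exact (hD x).mpr ⟨x, hx, h0, 0, by simp⟩
  have hDn : ∀ g ∈ Γ, ∀ t ∈ D, g * t * g⁻¹ ∈ D := by
    intro g hg t ht
    obtain ⟨y, hy, j, rfl⟩ := (hΓ g).mp hg
    obtain ⟨x, hx, hx0, i, rfl⟩ := (hD t).mp ht
    have h1 := h.cji j hx
    have h2 := h.cji (r * i) (N.inv_mem hy)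
    refine (hD _).mpr ⟨y * (n ^ j * x * (n ^ j)⁻¹) * (n ^ (r * i) * y⁻¹ * (n ^ (r * i))⁻¹),
      N.mul_mem (N.mul_mem hy h1.1) h2.1, ?_, i, ?_⟩
    · rw [h.mul _ (N.mul_mem hy h1.1) _ h2.1, h.mul _ hy _ h1.1, h1.2, h2.2, h.inv hy, hx0,
        pow_mul, hζr, one_pow]
      ring
    · have h3 : n ^ j * n ^ (r * i) = n ^ (r * i) * n ^ j := by
        rw [← pow_add, ← pow_add, add_comm]
      calc y * n ^ j * (x * n ^ (r * i)) * (y * n ^ j)⁻¹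
          = y * (n ^ j * x * (n ^ j)⁻¹) * (n ^ j * n ^ (r * i)) * (n ^ j)⁻¹ * y⁻¹ := by group
        _ = y * (n ^ j * x * (n ^ j)⁻¹) * (n ^ (r * i) * n ^ j) * (n ^ j)⁻¹ * y⁻¹ := by rw [h3]
        _ = _ := by group
  let D' : Subgroup Γ := D.subgroupOf Γ
  haveI hD'n : D'.Normal := by
    constructor
    intro x hx g
    rw [Subgroup.mem_subgroupOf] at hx ⊢
    exact hDn g g.2 x hx
  let q : Γ →* Γ ⧸ D' := QuotientGroup.mk' D'
  have hq1 : ∀ x : Γ, q x = 1 ↔ (x : T) ∈ D := by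
    intro x
    rw [← Subgroup.mem_subgroupOf]
    exact QuotientGroup.eq_one_iff x
  have hqeq : ∀ (x y : T) (hx : x ∈ N) (hy : y ∈ N), f x = f y →
      q ⟨x, hNΓ x hx⟩ = q ⟨y, hNΓ y hy⟩ := by
    intro x y hx hy hf
    rw [← mul_inv_eq_one, ← map_inv, ← map_mul, hq1]
    show x * y⁻¹ ∈ D
    rw [hDN _ (N.mul_mem hx (N.inv_mem hy)), h.mul _ hx _ (N.inv_mem hy), h.inv hy, hf,
      add_neg_cancel]
  choose w hwN hwf using h.sur
  let e : Multiplicative R →* Γ ⧸ D' := MonoidHom.mk' (fun y => q ⟨w y.toAdd, hNΓ _ (hwN _)⟩) (by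
    intro x y
    rw [← map_mul]
    refine hqeq _ _ (hwN _) (N.mul_mem (hwN _) (hwN _)) ?_
    rw [hwf, h.mul _ (hwN _) _ (hwN _), hwf, hwf, toAdd_mul])
  have heq : ∀ (x : T) (hx : x ∈ N), q ⟨x, hNΓ x hx⟩ = e (Multiplicative.ofAdd (f x)) := by
    intro x hx
    exact hqeq x _ hx (hwN _) (by rw [hwf, toAdd_ofAdd])
  have heinj : Function.Injective e := by
    rw [injective_iff_map_eq_one]
    intro y hy
    have h1 : (w y.toAdd) ∈ D := (hq1 _).mp hy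
    rw [hDN _ (hwN _), hwf] at h1
    exact h1
  have hzΓ := hNΓ z hz
  let nq : Γ ⧸ D' := q ⟨n, hnΓ⟩
  let zq : Γ ⧸ D' := q ⟨z, hzΓ⟩
  have hzq : zq = e (Multiplicative.ofAdd 1) := by
    rw [← hfz]; exact heq z hz
  have hnconj : ∀ y : R, nq * e (Multiplicative.ofAdd y) * nq⁻¹ = e (Multiplicative.ofAdd (ζ * y))
      := by
    intro y
    obtain ⟨x, hx, rfl⟩ := h.sur y
    rw [← heq x hx, ← (h.cj x hx).2, ← heq _ (h.cj x hx).1, ← map_inv, ← map_mul, ← map_mul]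
    rfl
  have hecomm : ∀ x y : Multiplicative R, e x * e y = e y * e x := by
    intro x y
    rw [← map_mul, ← map_mul, mul_comm]
  refine hGRB (Γ ⧸ D') R p r b c e ζ (ζ - 1) nq (MulAut.conj zq⁻¹) hp hp2 hr hrp hb hc hR heinj
    ?_ ?_ hnconj ?_ ?_ hζu d ?_
  · intro x
    obtain ⟨⟨x, hx⟩, rfl⟩ := QuotientGroup.mk'_surjective D' x
    obtain ⟨y, hy, i, hyi⟩ := (hΓ x).mp hx
    refine ⟨f y, i, ?_⟩
    rw [← heq y hy, ← map_pow, ← map_mul]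
    show q _ = q _
    congr 1
    exact Subtype.ext hyi
  · show (q ⟨n, hnΓ⟩) ^ r = 1
    rw [← map_pow, hq1]
    refine (hD _).mpr ⟨1, N.one_mem, h.one, 1, ?_⟩
    show n ^ r = _
    rw [one_mul, mul_one]
  · intro y
    rw [MulAut.conj_apply, inv_inv, hzq, ← map_inv, hecomm _ (Multiplicative.ofAdd y), mul_assoc,
      ← map_mul, inv_mul_cancel, map_one, mul_one]
  · rw [MulAut.conj_apply, inv_inv]
    have h1 := hnconj 1
    rw [mul_one] at h1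
    calc zq⁻¹ * nq * zq = zq⁻¹ * (nq * zq * nq⁻¹) * nq := by group
      _ = e (Multiplicative.ofAdd (ζ - 1)) * nq := by
        rw [hzq, h1, ← map_inv, ← map_mul, ← ofAdd_neg, ← ofAdd_add]
        congr 3
        ring
  · have hσΓ : ∀ x, x ∈ Γ ↔ (MulAut.conj z⁻¹ : MulAut T) x ∈ Γ := by
      intro x
      rw [MulAut.conj_apply, inv_inv]
      constructor
      · intro hx
        exact Γ.mul_mem (Γ.mul_mem (Γ.inv_mem hzΓ) hx) hzΓ
      · intro hx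
        have h1 := Γ.mul_mem (Γ.mul_mem hzΓ hx) (Γ.inv_mem hzΓ)
        have h2 : z * (z⁻¹ * x * z) * z⁻¹ = x := by group
        rwa [h2] at h1
    exact hQTL T (Γ ⧸ D') (MulAut.conj z⁻¹) (MulAut.conj zq⁻¹) Γ hσΓ q
      (QuotientGroup.mk'_surjective D') (fun x => rfl) (p ^ b) d (pow_pos hp.pos b) hL

end

theorem eq_one_coprime {G : Type} [Monoid G] {x : G} {a b : ℕ} (h1 : x ^ a = 1) (h2 : x ^ b = 1)
    (h : Nat.Coprime a b) : x = 1 := by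
  have h3 : orderOf x ∣ Nat.gcd a b :=
    Nat.dvd_gcd (orderOf_dvd_of_pow_eq_one h1) (orderOf_dvd_of_pow_eq_one h2)
  rw [h] at h3
  exact orderOf_eq_one_iff.mp (Nat.dvd_one.mp h3)

theorem gse_thm (hQTL : QTLStmt) (hGRB : GRBStmt) (hMOD : MODStmt) : GSEStmt := by
  intro T _ _ p b c m A z n hp hp2 hb hc hA hAc hAn hnm hpm hzA hzc hzn d hL
  classical
  have hm0 : 0 < m := Nat.pos_of_ne_zero (by rintro rfl; exact hpm (dvd_zero p))
  letI : CommGroup A :=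
    { (inferInstance : Group A) with
      mul_comm := fun x y => Subtype.ext (hAc x x.2 y y.2) }
  have hcjA : ∀ x : A, n * x * n⁻¹ ∈ A := fun x => (hAn x).mp x.2
  let α : Additive A →+ Additive A :=
    MonoidHom.toAdditive (MonoidHom.mk' (fun x : A => (⟨n * x * n⁻¹, hcjA x⟩ : A)) (by
      intro x y
      apply Subtype.ext
      show n * (x * y) * n⁻¹ = (n * x * n⁻¹) * (n * y * n⁻¹)
      group))
  have hα : ∀ x : A, α (Additive.ofMul x) = Additive.ofMul ⟨n * x * n⁻¹, hcjA x⟩ := fun x => rfl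
  have hαi : ∀ (k : ℕ) (x : A),
      ((Additive.toMul (α^[k] (Additive.ofMul x)) : A) : T) = n ^ k * x * (n ^ k)⁻¹ := by
    intro k
    induction k with
    | zero => intro x; simp
    | succ k ih =>
      intro x
      rw [Function.iterate_succ_apply, hα, ih]
      show n ^ k * (n * x * n⁻¹) * (n ^ k)⁻¹ = _
      rw [pow_succ]
      group
  have hαm : ∀ x : Additive A, α^[m] x = x := by
    intro x
    have h1 := hαi m (Additive.toMul x)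
    rw [hnm] at h1
    apply Additive.toMul.injective
    apply Subtype.ext
    rw [ofMul_toMul] at h1
    rw [h1]
    group
  have hz1 : p ^ c • (Additive.ofMul (⟨z, hzA⟩ : A)) = 0 := by
    rw [← ofMul_pow]
    have h1 : (⟨z, hzA⟩ : A) ^ (p ^ c) = 1 := Subtype.ext hzc
    rw [h1, ofMul_one]
  have hz2 : α (p ^ (c - 1) • Additive.ofMul (⟨z, hzA⟩ : A)) ≠
      p ^ (c - 1) • Additive.ofMul (⟨z, hzA⟩ : A) := by
    rw [← ofMul_pow, hα]
    intro h1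
    apply hzn
    have h2 : n * z ^ (p ^ (c - 1)) * n⁻¹ = z ^ (p ^ (c - 1)) :=
      congrArg Subtype.val (Additive.ofMul.injective h1)
    calc n * z ^ (p ^ (c - 1)) = n * z ^ (p ^ (c - 1)) * n⁻¹ * n := by group
      _ = _ := by rw [h2]
  obtain ⟨R, _, N, π, ζ, hR, hπs, hNα, ⟨hzN, hπz⟩, hπα, hζu, hζm⟩ :=
    hMOD (Additive A) p c m α (Additive.ofMul ⟨z, hzA⟩) hp hc hpm hαm hz1 hz2
  let N' : Subgroup T :=
    { carrier := {x | ∃ h : x ∈ A, (Additive.ofMul (⟨x, h⟩ : A)) ∈ N}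
      one_mem' := ⟨A.one_mem, N.zero_mem⟩
      mul_mem' := by
        rintro x y ⟨hx, hx'⟩ ⟨hy, hy'⟩
        exact ⟨A.mul_mem hx hy, N.add_mem hx' hy'⟩
      inv_mem' := by
        rintro x ⟨hx, hx'⟩
        exact ⟨A.inv_mem hx, N.neg_mem hx'⟩ }
  let f : T → R := fun x =>
    if h : ∃ h : x ∈ A, (Additive.ofMul (⟨x, h⟩ : A)) ∈ N then
      π ⟨Additive.ofMul (⟨x, h.choose⟩ : A), h.choose_spec⟩ else 0
  have hf : ∀ (x : T) (hx : x ∈ A) (hx' : (Additive.ofMul (⟨x, hx⟩ : A)) ∈ N),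
      f x = π ⟨Additive.ofMul (⟨x, hx⟩ : A), hx'⟩ := by
    intro x hx hx'
    exact dif_pos (⟨hx, hx'⟩ : ∃ h : x ∈ A, (Additive.ofMul (⟨x, h⟩ : A)) ∈ N)
  have hmul : ∀ x ∈ N', ∀ y ∈ N', f (x * y) = f x + f y := by
    rintro x ⟨hx, hx'⟩ y ⟨hy, hy'⟩
    rw [hf x hx hx', hf y hy hy', hf (x * y) (A.mul_mem hx hy) (N.add_mem hx' hy'), ← map_add]
    rfl
  have hcj : ∀ x ∈ N', n * x * n⁻¹ ∈ N' ∧ f (n * x * n⁻¹) = ζ * f x := by
    rintro x ⟨hx, hx'⟩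
    have h1 : n * x * n⁻¹ ∈ A := hcjA ⟨x, hx⟩
    have h2 : Additive.ofMul (⟨n * x * n⁻¹, h1⟩ : A) ∈ N := (hNα _).mp hx'
    refine ⟨⟨h1, h2⟩, ?_⟩
    rw [hf _ h1 h2, hf x hx hx']
    exact hπα ⟨_, hx'⟩ ⟨_, h2⟩ rfl
  have hcji : ∀ (k : ℕ) (x : T), x ∈ N' →
      n ^ k * x * (n ^ k)⁻¹ ∈ N' ∧ f (n ^ k * x * (n ^ k)⁻¹) = ζ ^ k * f x := by
    intro k x hx
    induction k with
    | zero => simpa using hx
    | succ k ih =>
      have h1 := hcj _ ih.1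
      have h2 : n ^ (k + 1) * x * (n ^ (k + 1))⁻¹ = n * (n ^ k * x * (n ^ k)⁻¹) * n⁻¹ := by
        rw [pow_succ']; group
      rw [h2]
      refine ⟨h1.1, ?_⟩
      rw [h1.2, ih.2, pow_succ', mul_assoc]
  have hsur : ∀ y : R, ∃ x ∈ N', f x = y := by
    intro y
    obtain ⟨⟨x, hx⟩, rfl⟩ := hπs y
    refine ⟨((Additive.toMul x : A) : T), ⟨(Additive.toMul x : A).2, hx⟩, ?_⟩
    rw [hf _ (Additive.toMul x : A).2 hx]
    rfl
  have hfz : f z = 1 := by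
    rw [hf z hzA hzN]
    exact hπz
  have hR1 : (1 : R) ≠ 0 := by
    intro h0
    apply hR.2.2.1
    rw [← one_mul ((p : R) ^ (c - 1)), h0, zero_mul]
  have hζ1 : ζ ≠ 1 := by
    rintro rfl
    rw [sub_self] at hζu
    exact hR1 (isUnit_zero_iff.mp hζu).symm
  have hom : orderOf ζ ∣ m := orderOf_dvd_of_pow_eq_one hζm
  have ho1 : orderOf ζ ≠ 1 := fun h0 => hζ1 (orderOf_eq_one_iff.mp h0)
  have ho0 : 0 < orderOf ζ := Nat.pos_of_dvd_of_pos hom hm0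
  set r := Nat.minFac (orderOf ζ) with hrdef
  have hr : r.Prime := Nat.minFac_prime ho1
  have hro : r ∣ orderOf ζ := Nat.minFac_dvd _
  obtain ⟨k, hk⟩ := hro
  have hk0 : k ≠ 0 := by
    rintro rfl
    rw [mul_zero] at hk
    omega
  have hrp : r ≠ p := by
    rintro h0
    apply hpm
    rw [← h0]
    exact (Dvd.intro _ hk.symm).trans hom
  have hζr : (ζ ^ k) ^ r = 1 := by
    rw [← pow_mul, mul_comm, ← hk, pow_orderOf_eq_one]
  have hζk : ζ ^ k ≠ 1 := by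
    apply pow_ne_one_of_lt_orderOf hk0
    rw [hk]
    have := hr.one_lt
    nlinarith [Nat.pos_of_ne_zero hk0]
  have hζku : IsUnit (ζ ^ k - 1) := by
    rcases hR.2.2.2 (ζ ^ k - 1) with h0 | ⟨y, hy⟩
    · exact h0
    · exfalso
      apply hζk
      have h1 : (p : R) ∣ ζ ^ k - 1 := ⟨y, hy⟩
      have h2 := dvd_sub_pow_of_dvd_sub h1 (c - 1)
      rw [Nat.sub_add_cancel hc, hR.2.1, zero_dvd_iff, one_pow, sub_eq_zero] at h2
      exact eq_one_coprime h2 hζr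
        (Nat.Coprime.pow_left _ ((Nat.coprime_primes hp hr).mpr hrp.symm))
  have hGD : GD N' (n ^ k) f (ζ ^ k) m := by
    refine ⟨hm0, ?_, hmul, fun x hx => hcji k x hx, ?_, hsur, ?_⟩
    · rw [← pow_mul, mul_comm, pow_mul, hnm, one_pow]
    · rintro x ⟨hx, -⟩ y ⟨hy, -⟩
      exact hAc x hx y hy
    · rintro i ⟨hi, -⟩
      obtain ⟨j, hj⟩ := hA ⟨_, hi⟩
      have h1 : ((n ^ k) ^ i) ^ (p ^ j) = 1 := congrArg Subtype.val hj
      have h2 : ((n ^ k) ^ i) ^ m = 1 := by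
        have h3 : k * i * m = m * (k * i) := by ring
        rw [← pow_mul n k i, ← pow_mul, h3, pow_mul, hnm, one_pow]
      exact eq_one_coprime h1 h2 (Nat.Coprime.pow_left _ ((Nat.Prime.coprime_iff_not_dvd hp).mpr hpm))
  exact hGD.core hQTL hGRB hp hp2 hr hrp hb hc hR hζr hζku ⟨hzA, hzN⟩ hfz d hL

end Pool.ENR
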