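import Pool.Agent.H14.ENR.Stmts4

/-!
Board enr, part 4, row PWA.
-/

set_option autoImplicit false

namespace Pool.ENR

open Pool.Agent.H81.ENG Pool.Agent.H55.NEU

theorem prod_zpow_sum {G : Type} [CommGroup G] (b : G) (e : ℕ → ℤ) (K : ℕ) :
    ∏ l ∈ Finset.range K, b ^ e l = b ^ (∑ l ∈ Finset.range K, e l) := by
  induction K with
  | zero => simp
  | succ K ih => rw [Finset.prod_range_succ, Finset.sum_range_succ, zpow_add, ih]

theorem pwa_thm : PWAStmt := by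
  intro F _ _ i m a φ h2 hi hφ hm ha hprod
  have hne : (-1 : F) ≠ 1 := by
    intro h
    apply h2
    linear_combination -h
  -- units
  let Φ : Fˣ →* Fˣ := Units.map (φ : F →* F)
  have hΦ : ∀ x : Fˣ, ((Φ x : Fˣ) : F) = φ (x : F) := fun x => rfl
  obtain ⟨g, hg⟩ := IsCyclic.exists_generator (α := Fˣ)
  have hgn : ∀ x : Fˣ, ∃ k : ℕ, g ^ k = x := by
    intro x
    have h1 := hg x
    rw [← mem_powers_iff_mem_zpowers] at h1
    obtain ⟨k, hk⟩ := h1
    exact ⟨k, hk⟩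
  obtain ⟨Q, hQ⟩ := hgn (Φ g)
  have hQx : ∀ x : Fˣ, Φ x = x ^ Q := by
    intro x
    obtain ⟨k, rfl⟩ := hgn x
    rw [map_pow, ← hQ, ← pow_mul, ← pow_mul, mul_comm]
  -- the element of order 4
  have hi0 : i ≠ 0 := by
    rintro rfl
    rw [mul_zero] at hi
    exact one_ne_zero (neg_eq_zero.mp hi.symm)
  let iu : Fˣ := Units.mk0 i hi0
  have hiu2 : iu ^ 2 = -1 := by
    apply Units.ext
    show i ^ 2 = ((-1 : Fˣ) : F)
    rw [sq, hi, Units.val_neg, Units.val_one]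
  have hm1 : (-1 : Fˣ) ≠ 1 := by
    intro h
    apply hne
    have := congrArg Units.val h
    rwa [Units.val_neg, Units.val_one] at this
  have hiu : orderOf iu = 2 ^ 2 := by
    apply orderOf_eq_prime_pow (p := 2) (n := 1)
    · rw [pow_one, hiu2]
      exact hm1
    · show iu ^ 2 ^ 2 = 1
      rw [show (2 : ℕ) ^ 2 = 2 * 2 from rfl, pow_mul, hiu2]
      rw [sq, neg_mul_neg, mul_one]
  have hQ4 : Q ≡ 1 [MOD 4] := by
    have h1 : iu ^ Q = iu ^ 1 := by
      rw [← hQx, pow_one]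
      exact Units.ext (by rw [hΦ]; exact hφ)
    rw [pow_inj_mod, hiu] at h1
    exact h1
  have hn4 : 4 ∣ orderOf g := by
    have h1 : orderOf iu ∣ orderOf g := by
      obtain ⟨k, hk⟩ := hgn iu
      rw [← hk]
      exact orderOf_pow_dvd k
    rw [hiu] at h1
    exact h1
  have hn0 : 0 < orderOf g := orderOf_pos g
  set n := orderOf g with hn
  obtain ⟨k', hk'⟩ : ∃ k' : ℕ, Q = 4 * k' + 1 := by
    refine ⟨Q / 4, ?_⟩
    have : Q % 4 = 1 % 4 := hQ4
    omega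
  set u := 2 * k' + 1 with hu
  let d := Nat.gcd u n
  have hdu : d ∣ u := Nat.gcd_dvd_left _ _
  have hdn : d ∣ n := Nat.gcd_dvd_right _ _
  have hd2 : ¬ 2 ∣ d := by
    intro h
    have := h.trans hdu
    omega
  have hd0 : 0 < d := Nat.pos_of_dvd_of_pos hdn hn0
  -- the exponent
  let au : Fˣ := Units.mk0 a ha
  have hφl : ∀ (l : ℕ) (x : Fˣ), (φ ^ l) (x : F) = ((x ^ (Q ^ l) : Fˣ) : F) := by
    intro l
    induction l with
    | zero => intro x; rw [pow_zero, pow_zero, pow_one]; rfl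
    | succ l ih =>
      intro x
      rw [pow_succ, RingAut.mul_apply, ← hΦ, ih, hQx, ← pow_mul, pow_succ']
  let S : ℤ := (1 - (Q : ℤ)) * ∑ l ∈ Finset.range (2 ^ (m - 1)), (Q : ℤ) ^ (2 * l)
  have hS : au ^ S = -1 := by
    apply Units.ext
    rw [Units.val_neg, Units.val_one, ← hprod]
    have h1 : a * (φ a)⁻¹ = ((au ^ (1 - (Q : ℤ)) : Fˣ) : F) := by
      rw [zpow_sub, zpow_one, zpow_natCast, ← hQx, Units.val_mul, Units.val_inv_eq_inv_val, hΦ]
      rfl
    have h2 : ∀ l : ℕ, (φ ^ (2 * l)) (a * (φ a)⁻¹) =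
        (((au ^ (1 - (Q : ℤ))) ^ ((Q : ℤ) ^ (2 * l)) : Fˣ) : F) := by
      intro l
      rw [h1, hφl, ← Nat.cast_pow, zpow_natCast]
    rw [Finset.prod_congr rfl (fun l _ => h2 l)]
    rw [← Units.coe_prod]
    congr 1
    rw [prod_zpow_sum, ← zpow_mul]
  -- `S` is prime to `d`
  have hSd : IsCoprime S (d : ℤ) := by
    have h1 : (u : ℤ) ∣ S - 2 ^ m := by
      have hQu : (Q : ℤ) ≡ -1 [ZMOD (u : ℤ)] := by
        apply Int.ModEq.symm
        rw [Int.modEq_iff_dvd]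
        exact ⟨2, by rw [hk', hu]; push_cast; ring⟩
      have h2 : S ≡ (1 - (-1)) * ∑ l ∈ Finset.range (2 ^ (m - 1)), (1 : ℤ) [ZMOD (u : ℤ)] := by
        refine Int.ModEq.mul (Int.ModEq.sub_left _ hQu) ?_
        apply Int.ModEq.sum
        intro l _
        have h3 := hQu.pow (2 * l)
        rwa [pow_mul (-1 : ℤ), neg_one_sq, one_pow] at h3
      have h3 : ((1 : ℤ) - (-1)) * ∑ l ∈ Finset.range (2 ^ (m - 1)), (1 : ℤ) = 2 ^ m := by
        rw [Finset.sum_const, Finset.card_range, nsmul_eq_mul, mul_one]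
        obtain ⟨m', rfl⟩ := Nat.exists_eq_add_of_le hm
        push_cast
        rw [Nat.add_sub_cancel_left, pow_add]
        ring
      rw [h3] at h2
      exact (Int.modEq_iff_dvd.mp h2.symm)
    have h2 : (d : ℤ) ∣ S - 2 ^ m := (Int.natCast_dvd_natCast.mpr hdu).trans h1
    obtain ⟨w, hw⟩ := h2
    have h3 : IsCoprime ((2 : ℤ) ^ m) (d : ℤ) := by
      apply IsCoprime.pow_left
      rw [show (2 : ℤ) = ((2 : ℕ) : ℤ) from rfl, Nat.isCoprime_iff_coprime]
      exact (Nat.Prime.coprime_iff_not_dvd Nat.prime_two).mpr hd2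
    have h4 : S = 2 ^ m + (d : ℤ) * w := by linarith
    rw [h4]
    exact IsCoprime.add_mul_left_left h3 w
  obtain ⟨n', hn'⟩ := hdn
  have hn'2 : 2 ∣ n' := by
    have h1 : 2 ∣ d * n' := by rw [← hn']; omega
    exact (Nat.Prime.dvd_mul Nat.prime_two).mp h1 |>.resolve_left hd2
  have hy : au ^ n' = 1 := by
    have h1 : (au ^ n') ^ (d : ℤ) = 1 := by
      rw [zpow_natCast, ← pow_mul, mul_comm, ← hn']
      obtain ⟨k, hk⟩ := hgn au
      rw [← hk, ← pow_mul, mul_comm, pow_mul, hn, pow_orderOf_eq_one, one_pow]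
    have h2 : (au ^ n') ^ S = 1 := by
      rw [← zpow_natCast, ← zpow_mul, mul_comm, zpow_mul, hS, zpow_natCast]
      obtain ⟨j, rfl⟩ := hn'2
      rw [pow_mul, sq, neg_mul_neg, mul_one, one_pow]
    obtain ⟨α, β, hαβ⟩ := hSd
    have h3 : (au ^ n') ^ (α * S) = 1 := by rw [mul_comm, zpow_mul _ S α, h2, one_zpow]
    have h4 : (au ^ n') ^ (β * (d : ℤ)) = 1 := by rw [mul_comm, zpow_mul, h1, one_zpow]
    rw [← zpow_one (au ^ n'), ← hαβ, zpow_add, h3, h4, mul_one]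
  obtain ⟨A, hA⟩ := hgn au
  have hdA : d ∣ A := by
    rw [← hA, ← pow_mul] at hy
    have h1 : n ∣ A * n' := orderOf_dvd_of_pow_eq_one hy
    rw [hn'] at h1
    have hn'0 : 0 < n' := Nat.pos_of_ne_zero (by rintro rfl; omega)
    exact Nat.dvd_of_mul_dvd_mul_right hn'0 h1
  obtain ⟨A', hA'⟩ := hdA
  let ν : Fˣ := (g ^ (Nat.gcdA u n)) ^ A'
  have hν : ν ^ u = au := by
    have h1 : (d : ℤ) = u * Nat.gcdA u n + n * Nat.gcdB u n := Nat.gcd_eq_gcd_ab u n
    have h2 : g ^ (d : ℤ) = (g ^ (Nat.gcdA u n)) ^ u := by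
      rw [h1, zpow_add, zpow_mul, zpow_natCast, zpow_mul, zpow_natCast, hn, pow_orderOf_eq_one,
        one_zpow, mul_one, ← zpow_natCast, ← zpow_mul, mul_comm, zpow_mul, zpow_natCast]
    show ((g ^ (Nat.gcdA u n)) ^ A') ^ u = au
    rw [← pow_mul, mul_comm, pow_mul, ← h2, zpow_natCast, ← pow_mul, ← hA', hA]
  refine ⟨ν, ν.ne_zero, ?_⟩
  have h1 : ν * Φ ν = au * au := by
    rw [hQx, ← pow_succ', hk', show 4 * k' + 1 + 1 = u + u by omega, pow_add, hν]
  have h2 := congrArg Units.val h1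
  rw [Units.val_mul, Units.val_mul, hΦ] at h2
  exact h2

end Pool.ENR
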