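import Pool.Agent.H36.ENR.Stmts2

/-!
# Board enr (MP_d15c96_al), part 4: `Good 2 (PSL(2,F))` for `F` of characteristic `≡ 1 mod 4`

Every row `XXX` is a statement `XXXStmt : Prop`; the proof is in its docstring.
Throughout, `2 ≠ 0` in `F`, and there is `ι ∈ F` with `ι * ι = -1`, fixed by the field automorphism.
-/

set_option autoImplicit false

namespace Pool.ENR

open Pool.Agent.H81.ENG Pool.Agent.H55.NEU

/-- `σ` is `pr N ↦ pr [[φ N11, a φ N10], [a⁻¹ φ N01, φ N00]]`, the product of the conjugation by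
`[[0, a], [1, 0]]` and the field automorphism `φ`. -/
def SwF {F : Type} [Field F] (σ : MulAut (PS F)) (a : Fˣ) (φ : F ≃+* F) : Prop :=
  ∀ N M : SL2 F, M 0 0 = φ (N 1 1) → M 0 1 = a * φ (N 1 0) →
    M 1 0 = ((a⁻¹ : Fˣ) : F) * φ (N 0 1) → M 1 1 = φ (N 0 0) → σ (pr N) = pr M

/-- Row ORB (30 lines). Proof: if `σ` has no fixed point then `σ.support = univ` and
`Nat.card X = σ.cycleType.sum` (`Equiv.Perm.sum_cycleType`). Every member of `σ.cycleType` divides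
`orderOf σ`, so `2 ^ N` (`Equiv.Perm.dvd_of_mem_cycleType`), and is at least `2`; if all are
different from `2` they are divisible by `4`, and so is the sum (`Multiset.dvd_sum`). So
`2 ∈ σ.cycleType`; `Equiv.Perm.mem_cycleType_iff`: `σ = c * τ`, disjoint, `c` a cycle with two
points, so a transposition (`Equiv.Perm.card_support_eq_two`), `c = swap x y`, and `σ x = y`,
`σ y = x`. -/
def ORBStmt : Prop :=
  ∀ (X : Type) [Finite X] (σ : Equiv.Perm X) (N : ℕ), σ ^ (2 ^ N) = 1 → ¬ 4 ∣ Nat.card X →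
    ∃ x, σ (σ x) = x

/-- Row SY4 (60 lines; needs ORB, CSY). As rows FXY and FUU of part 2. The automorphism `σ` acts on
the finite set `Sylow r (PS F)` (with `q + 1 ≡ 2 mod 4` elements, CSY) as a permutation of
`2`-power order. ORB: there is `P` with `σ² P = P`. `UU F` is a Sylow subgroup (`sylow_of_card`,
`card_UU`), so `UU F = h P h⁻¹` for some `h`. -/
def SY4Stmt : Prop :=
  ∀ (F : Type) [Field F] [Finite F] (r f N : ℕ) [Fact r.Prime] (σ : MulAut (PS F)), 0 < f →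
    Nat.card F = r ^ f → Nat.card F % 4 = 1 → σ ^ (2 ^ N) = 1 →
    ∃ h : PS F, ∀ x, x ∈ UU F ↔ ((MulAut.conj h * σ * (MulAut.conj h)⁻¹) ^ 2) x ∈ UU F

/-- Row SWF (90 lines). Proof: `fld_spec`: `σ = conj (pr M) * ee c φ`. `ee c φ` preserves `UU F`, so
`M 1 0 ≠ 0` (otherwise `conj_uu` shows that `σ` preserves `UU F`). Put `b = -(M 0 0) / (M 1 0)`.
`conj (pr (uu b)) * σ * (conj (pr (uu b)))⁻¹ = conj (pr M') * ee c φ` with
`M' = uu b * M * uu (-(c * φ b))` (`conj_comm`), `M' 0 0 = 0`, `M' 1 0 = M 1 0 = γ`,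
`M' 0 1 = -γ⁻¹`. The square of this automorphism preserves `UU F` as well (`uu b` normalises it); it
maps `pr (uu x)` to the conjugate by `pr M'` of the image under `ee c φ` of the lower unipotent
element `M' * uu (c φ x) * M'⁻¹`, so (computing the `(1,0)` entry for one `x ≠ 0`) `M' 1 1 = 0`.
Then `SwF` holds with `a = -(c * γ²)⁻¹`, by `EE_apply` and a computation of entries (`pr M'` conjugates
`[[A, B], [C, D]]` to `[[D, -C γ⁻²], [-γ² B, A]]`). -/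
def SWFStmt : Prop :=
  ∀ (F : Type) [Field F] [Finite F] (σ : MulAut (PS F)), (∀ x, x ∈ UU F ↔ (σ ^ 2) x ∈ UU F) →
    (¬ ∀ x, x ∈ UU F ↔ σ x ∈ UU F) →
    ∃ (b : F) (a : Fˣ), SwF (MulAut.conj (pr (uu b)) * σ * (MulAut.conj (pr (uu b)))⁻¹) a (fld σ)

/-- Row SWP (40 lines): even powers of `σ`. Proof: `σ ^ 2 = ee c₁ (φ ^ 2)`, `c₁ = a * (φ a)⁻¹` (both
map `pr N` to `pr [[φ² N00, c₁ φ² N01], [c₁⁻¹ φ² N10, φ² N11]]`, `EE_apply`); then induction on `k`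
with `ee_mul`. -/
def SWPStmt : Prop :=
  ∀ (F : Type) [Field F] (σ : MulAut (PS F)) (a : Fˣ) (φ : F ≃+* F), SwF σ a φ → ∀ k : ℕ,
    ∃ c : Fˣ, (c : F) = ∏ i ∈ Finset.range k, (φ ^ (2 * i)) ((a : F) * (φ (a : F))⁻¹) ∧
      σ ^ (2 * k) = ee c (φ ^ (2 * k))

/-- Row IOT (25 lines). Proof: `ZMod.exists_sq_eq_neg_one_iff` gives the element in `ZMod r`; map it
to `F` with `ZMod.castHom`; a ring homomorphism fixes the image of `ZMod r`. -/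
def IOTStmt : Prop :=
  ∀ (F : Type) [Field F] (r : ℕ) [Fact r.Prime] [CharP F r], r % 4 = 1 →
    ∃ i : F, i * i = -1 ∧ ∀ φ : F ≃+* F, φ i = i

/-- Row ILM (25 lines). Proof: induction on `k`. If `z ^ 2 ^ (k+1) = 1` apply the induction hypothesis
to `z ^ 2`: `(z ^ 2) ^ 2 = 1`, so `z ^ 2 = 1` or `z ^ 2 = -1`. In the last case `z = i` or `z = -i`
(`z ^ 2 = i ^ 2`), so `φ z = z` and `φ z * z = z * z = -1 = 1`, contradiction. -/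
def ILMStmt : Prop :=
  ∀ (F : Type) [Field F] (φ : F ≃+* F) (i z : F) (k : ℕ), (2 : F) ≠ 0 → i * i = -1 → φ i = i →
    φ z * z = 1 → z ^ (2 ^ k) = 1 → z = 1 ∨ z = -1

/-- Row SAB (60 lines): sections of abelian subgroups. Proof: `D = {x ∈ A | ∃ k, x ^ (p ^ k) = 1}`.
`D.relIndex A` is not divisible by `p`: otherwise (Cauchy in the quotient of `A` by
`D.subgroupOf A`, which is normal as `A` is abelian) there is `x ∈ A`, `x ∉ D`, `x ^ p ∈ D`,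
contradiction. It is not zero as `T` is finite. -/
def SABStmt : Prop :=
  ∀ (T : Type) [Group T] [Finite T] (p m : ℕ) (σ : MulAut T) (A : Subgroup T), p.Prime →
    (∀ x ∈ A, ∀ y ∈ A, x * y = y * x) → (∀ x, x ∈ A ↔ σ x ∈ A) →
    (∃ x ∈ A, ∀ k : ℕ, ((σ ^ (p ^ m)) x * x⁻¹) ^ (p ^ k) ≠ 1) → Sec p m σ

/-- Row TOR (70 lines; needs SWP, ILM, SAB). Proof: `A = {pr (hh t)}`, abelian, invariant
(`σ (pr (hh t)) = pr (hh (φ t)⁻¹)`). SWP with `k = 2 ^ (m-1)`: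
`σ ^ (2 ^ m) = ee c ψ`, `ψ = φ ^ (2 ^ m)`, which maps `pr (hh t)` to `pr (hh (ψ t))`, and
`ψ ^ 2 = 1` (as `σ ^ (2 ^ (m+1)) = 1`: `fld`, or `ψ² t = ± t` for all `t` and `eq_one_of_sign`).
`ψ ≠ 1`, so by `eq_one_of_sign` there is `t` (`≠ 0`) with `ψ t ≠ ± t`. Put `z = ψ t * t⁻¹`,
`ψ z * z = 1`. If `(pr (hh z)) ^ (2 ^ k) = 1` then `z ^ (2 ^ k) = ± 1`, `z ^ (2 ^ (k+1)) = 1`, so
`z = ± 1` by ILM, contradiction. So SAB applies. -/
def TORStmt : Prop :=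
  ∀ (F : Type) [Field F] [Finite F] (i : F) (m : ℕ) (σ : MulAut (PS F)) (a : Fˣ) (φ : F ≃+* F),
    (2 : F) ≠ 0 → i * i = -1 → (∀ ψ : F ≃+* F, ψ i = i) → SwF σ a φ → 1 ≤ m →
    σ ^ (2 ^ (m + 1)) = 1 → φ ^ (2 ^ m) ≠ 1 → Sec 2 m σ

/-- Row PWA (60 lines). Proof: `Fˣ` is cyclic, of order `n`, which is divisible by `4` (`i` has order
`4`). `Units.map φ` is a power map (`MonoidHom.map_cyclic`): `φ x = x ^ Q` (`Q : ℤ`; we may take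
`Q : ℕ`), and `φ i = i` gives `Q ≡ 1 mod 4`; `1 + Q = 2 u`, `u` odd. The hypothesis says
`a ^ S = -1` with `S = ∑_{l < 2 ^ m} (-Q) ^ l` (`∏_{l < 2 ^ (m-1)} φ ^ (2 l) (a * (φ a)⁻¹)`
`= a ^ (∑_{l < 2 ^ (m-1)} Q ^ (2 l) * (1 - Q))`). Let `d = gcd (u, n)`, odd. `-Q ≡ 1 mod d` (as
`1 + Q = 2 u`), so `S ≡ 2 ^ m mod d` and `gcd (S, d) = 1`. `y = a ^ (n / d)` satisfies `y ^ d = 1`
and `y ^ S = (-1) ^ (n / d) = 1` (`n / d` is even), so `y = 1`. With `a = g ^ A`, `g` a generator: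
`n ∣ A (n / d)`, `d ∣ A`, so `a` is a `d`-th power, and a `u`-th power
(`d = u α + n β`): `a = ν ^ u`, `ν * φ ν = ν ^ (1 + Q) = ν ^ (2 u) = a ^ 2`. -/
def PWAStmt : Prop :=
  ∀ (F : Type) [Field F] [Finite F] (i : F) (m : ℕ) (a : F) (φ : F ≃+* F),
    (2 : F) ≠ 0 → i * i = -1 → φ i = i → 1 ≤ m → a ≠ 0 →
    ∏ l ∈ Finset.range (2 ^ (m - 1)), (φ ^ (2 * l)) (a * (φ a)⁻¹) = -1 →
    ∃ ν : F, ν ≠ 0 ∧ ν * φ ν = a * a

/-- Row NSQ (30 lines). Proof: if `ν = μ * μ` then `(μ * φ μ) ^ 2 = a ^ 2`, `a = ± μ * φ μ` and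
`a * (φ a)⁻¹ = μ * (φ (φ μ))⁻¹`; the product telescopes to `μ * ((φ ^ (2 ^ m)) μ)⁻¹ = 1 ≠ -1`. -/
def NSQStmt : Prop :=
  ∀ (F : Type) [Field F] (m : ℕ) (a ν : F) (φ : F ≃+* F),
    (2 : F) ≠ 0 → 1 ≤ m → φ ^ (2 ^ m) = 1 → a ≠ 0 →
    ∏ l ∈ Finset.range (2 ^ (m - 1)), (φ ^ (2 * l)) (a * (φ a)⁻¹) = -1 →
    ν * φ ν = a * a → ¬ IsSquare ν

/-- Row GNU (90 lines): the nonsplit torus. Proof: `Γ` is closed under multiplication (`mul_00`, ..)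
and inverses (`inv_eq`). `Γ` has no element of order `2`, so odd order (Cauchy): if
`(pr M) ^ 2 = 1` then (`pr_eq_iff` for `M * M` and `1`) `2 * M 0 0 * M 1 0 = 0`; if `M 1 0 = 0` then
`M 0 0 ^ 2 = 1`, `pr M = 1`; if `M 0 0 = 0` then `-(ν * M 1 0 ^ 2) = 1`, `ν = (i / M 1 0) ^ 2`, a
square. The element with `M 0 0 = M 1 1 = (1 + ν) / (1 - ν)`, `M 1 0 = 2 / (1 - ν)`,
`M 0 1 = ν * M 1 0` is in `Γ` (`ν ≠ 1`). -/
def GNUStmt : Prop :=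
  ∀ (F : Type) [Field F] [Finite F] (i ν : F), (2 : F) ≠ 0 → i * i = -1 → ¬ IsSquare ν →
    ∃ Γ : Subgroup (PS F),
      (∀ g, g ∈ Γ ↔ ∃ M : SL2 F, M 1 1 = M 0 0 ∧ M 0 1 = ν * M 1 0 ∧ pr M = g) ∧
      ¬ 2 ∣ Nat.card Γ ∧ ∃ M : SL2 F, M 1 1 = M 0 0 ∧ M 0 1 = ν * M 1 0 ∧ M 1 0 ≠ 0

/-- Row CNU (90 lines; needs SWP, PWA, NSQ, GNU). Proof: SWP with `k = 2 ^ (m-1)`:
`σ ^ (2 ^ m) = ee c 1`, `c = ∏ ..`; `ee c 1` maps `pr (uu x)` to `pr (uu (c x))`, so `c ^ 2 = 1`,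
`c ≠ 1`: `c = -1`. PWA: `ν` with `ν * φ ν = a * a`, not a square (NSQ). GNU: `Γ`; `D = ⊥`. `Γ` is
invariant under `σ`: `σ (pr [[x, ν y], [y, x]]) = pr [[φ x, a φ y], [a⁻¹ φ ν φ y, φ x]]` and
`ν * (a⁻¹ * φ ν * φ y) = a * φ y`; the converse direction of `x ∈ Γ ↔ σ x ∈ Γ` because `Γ` is
finite (or `σ⁻¹` is a power of `σ`). The element `M` of GNU: `(ee c 1) (pr M) = pr [[x, -ν y],
[-y, x]]`; if it is equal to `pr M` then (`pr_eq_iff`) `x = r x`, `-y = r y`, `r ^ 2 = 1`: `y ≠ 0`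
gives `r = -1`, so `x = 0` and `ν` is a square as in GNU. -/
def CNUStmt : Prop :=
  ∀ (F : Type) [Field F] [Finite F] (i : F) (m : ℕ) (σ : MulAut (PS F)) (a : Fˣ) (φ : F ≃+* F),
    (2 : F) ≠ 0 → i * i = -1 → (∀ ψ : F ≃+* F, ψ i = i) → SwF σ a φ → 1 ≤ m →
    σ ^ (2 ^ (m + 1)) = 1 → σ ^ (2 ^ m) ≠ 1 → φ ^ (2 ^ m) = 1 → Sec 2 m σ

/-- Row SMO (25 lines). Proof: same `Γ`, `D`, `x`. If `(σ ^ (p ^ m)) x * x⁻¹ ∈ D` for all `x ∈ Γ`,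
then by induction on `l` (`D` is `σ`-invariant and normalised by `Γ`)
`(σ ^ (p ^ m * l)) x * x⁻¹ ∈ D` for all `x ∈ Γ`; take `l = p ^ (M - m)`. -/
def SMOStmt : Prop :=
  ∀ (T : Type) [Group T] (p m M : ℕ) (σ : MulAut T), m ≤ M → Sec p M σ → Sec p m σ

/-- Row GP4 (80 lines; needs INV of part 1, SCJ, SE1 of part 2, SY4, SWF, IOT, TOR, CNU, SMO). Proof:
`q ≡ 1 mod 4` (a power of `r`). Let `M` be maximal with `σ ^ (2 ^ M) ≠ 1`, `m ≤ M`,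
`σ ^ (2 ^ (M+1)) = 1`; by SMO it is enough to show `Sec 2 M σ`. If `M = 0`: INV (`PS F` is not
abelian: `uu 1`, `vv 1`). If `M ≥ 1`: SY4 gives `h`; `σ₁ = conj h * σ * (conj h)⁻¹` (SCJ). If `σ₁`
preserves `UU F`: SE1 with `p = 2 ≠ r`. Otherwise SWF, SCJ again, `σ₂` with `SwF σ₂ a φ`; IOT
gives `i`; if `φ ^ (2 ^ M) ≠ 1` TOR, else CNU. (First alternative of `Good`.) -/
def GP4Stmt : Prop :=
  ∀ (F : Type) [Field F] [Finite F] (r f : ℕ) [Fact r.Prime] [CharP F r], r % 4 = 1 → 0 < f →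
    Nat.card F = r ^ f → IsSimpleGroup (PS F) → Good 2 (PS F)

end Pool.ENR
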